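import Mathlib

open Set Metric MeasureTheory Filter Topology

namespace Pool.Agent.Results.MP_4d0de2_an.FoldedOsgoodSurface

/-!
# A surface with geometric tangent planes and no almost everywhere regular representation

The surface is the double of a closed planar region bounded by a curve of positive area: let
`T` be a continuous function on the plane whose zero set is a curve containing the product of two
Cantor sets of positive length and such that every zero of `T` is a limit of points where `T < 0`.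
With a smooth function `h ≥ 0` whose support is `{T > 0}` put
`S = {(x, y, z) : T (x, y) ≥ 0, |z| = h (x, y)}`.
Every point of `S` has a geometric tangent plane. If a continuous map from a planar domain into `S`
has partial derivatives and a nonzero Jacobian at all parameters over a set of fold points, then
its first two coordinates are almost linear on crosses of uniform size around the points of a set of
positive measure, hence on the boundary of small rectangles, hence they cover a neighbourhood of a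
fold point, which is impossible because fold points are limits of points outside the region.
-/

/-- The map `(u, v) ↦ (f, g, h)(u, v)` into Euclidean 3-space. -/
noncomputable def param (f g h : ℝ × ℝ → ℝ) (w : ℝ × ℝ) : EuclideanSpace ℝ (Fin 3) :=
  !₂[f w, g w, h w]

/-- `(D, f, g, h)` is a representation of `S`: `D` is a planar domain (a nonempty connected open
set), `f, g, h` are continuous on `D`, the map `(f, g, h)` is injective on `D`, and its image
is exactly `S`. -/
structure IsRepresentation (D : Set (ℝ × ℝ)) (f g h : ℝ × ℝ → ℝ)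
    (S : Set (EuclideanSpace ℝ (Fin 3))) : Prop where
  isOpen : IsOpen D
  isConnected : IsConnected D
  continuousOn_f : ContinuousOn f D
  continuousOn_g : ContinuousOn g D
  continuousOn_h : ContinuousOn h D
  injOn : Set.InjOn (param f g h) D
  image_eq : param f g h '' D = S

/-- The plane `p + V`, with `V` a two-dimensional linear subspace, is a geometric tangent plane to
`S` at `p`: for every `ε > 0` there is a ball around `p` such that for every point `q ≠ p` of `S` in
this ball the line through `p` and `q` makes an angle less than `ε` with the plane, that is, an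
angle less than `ε` with some line of the plane. -/
def IsTangentPlane (S : Set (EuclideanSpace ℝ (Fin 3))) (p : EuclideanSpace ℝ (Fin 3))
    (V : Submodule ℝ (EuclideanSpace ℝ (Fin 3))) : Prop :=
  Module.finrank ℝ V = 2 ∧ ∀ ε > 0, ∃ δ > 0, ∀ q ∈ S, q ≠ p → dist q p < δ →
    ∃ v ∈ V, v ≠ 0 ∧ InnerProductGeometry.angle (q - p) v < ε

/-- All first-order partial derivatives of `f, g, h` exist at `w`, and the three Jacobians
`∂(g,h)/∂(u,v)`, `∂(h,f)/∂(u,v)`, `∂(f,g)/∂(u,v)` are not all zero at `w`. -/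
def RegularAt (f g h : ℝ × ℝ → ℝ) (w : ℝ × ℝ) : Prop :=
  ∃ fu fv gu gv hu hv : ℝ,
    HasDerivAt (fun t => f (t, w.2)) fu w.1 ∧ HasDerivAt (fun t => f (w.1, t)) fv w.2 ∧
    HasDerivAt (fun t => g (t, w.2)) gu w.1 ∧ HasDerivAt (fun t => g (w.1, t)) gv w.2 ∧
    HasDerivAt (fun t => h (t, w.2)) hu w.1 ∧ HasDerivAt (fun t => h (w.1, t)) hv w.2 ∧
    ¬ (gu * hv - gv * hu = 0 ∧ hu * fv - hv * fu = 0 ∧ fu * gv - fv * gu = 0)



lemma cover (F : ℝ × ℝ → ℂ) (L : ℝ × ℝ →L[ℝ] ℂ) (hF : ContinuousOn F (closedBall 0 1)) (y : ℂ)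
    (h : ∀ z ∈ sphere (0 : ℝ × ℝ) 1, ‖F z - y - L z‖ < ‖L z‖) :
    ∃ z ∈ closedBall (0 : ℝ × ℝ) 1, F z = y := by
  by_contra hne
  push Not at hne
  set ret : ℝ × ℝ → ℝ × ℝ := fun z => (max (-1) (min 1 z.1), max (-1) (min 1 z.2)) with hretdef
  have hret : Continuous ret := by fun_prop
  have hretmem : ∀ z, ret z ∈ closedBall (0 : ℝ × ℝ) 1 := by
    intro z
    rw [mem_closedBall_zero_iff, Prod.norm_def]
    simp only [hretdef, Real.norm_eq_abs]
    refine max_le ?_ ?_ <;> rw [abs_le] <;> constructor <;> simp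
  have hreteq : ∀ z ∈ closedBall (0:ℝ×ℝ) 1, ret z = z := by
    intro z hz
    rw [mem_closedBall_zero_iff, Prod.norm_def] at hz
    have h1 := le_trans (le_max_left _ _) hz
    have h2 := le_trans (le_max_right _ _) hz
    rw [Real.norm_eq_abs, abs_le] at h1 h2
    ext
    · simp only [hretdef]; rw [min_eq_right h1.2, max_eq_right h1.1]
    · simp only [hretdef]; rw [min_eq_right h2.2, max_eq_right h2.1]
  have hcont : Continuous (fun z => F (ret z) - y) := by
    have : Continuous (fun z => F (ret z)) := hF.comp_continuous hret hretmem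
    exact this.sub continuous_const
  have hsc : IsSimplyConnected (univ : Set (ℝ × ℝ)) := by
    have : ContractibleSpace (univ : Set (ℝ × ℝ)) :=
      (Homeomorph.Set.univ (ℝ × ℝ)).contractibleSpace
    unfold IsSimplyConnected
    infer_instance
  obtain ⟨f, hf, hf2⟩ := Complex.exists_continuousOn_pow_eq hsc isOpen_univ hcont.continuousOn
    (by
      rintro ⟨z, -, hz⟩
      exact hne (ret z) (hretmem z) (by simpa [sub_eq_zero] using hz)) two_ne_zero
  rw [continuousOn_univ] at hf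
  set T := sphere (0 : ℝ × ℝ) 1 with hT
  have hTsub : T ⊆ closedBall 0 1 := sphere_subset_closedBall
  have hTpre : IsPreconnected T := isPreconnected_sphere (by simp; norm_num) 0 1
  have hLne : ∀ z ∈ T, L z ≠ 0 := by
    intro z hz h0
    have := h z hz
    rw [h0, norm_zero] at this
    exact absurd this (not_lt.mpr (norm_nonneg _))
  have hslit : ∀ z ∈ T, (F z - y) / L z ∈ Complex.slitPlane := by
    intro z hz
    have h1 : (F z - y) / L z = 1 + (F z - y - L z) / L z := by
      field_simp [hLne z hz]; ring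
    rw [h1]
    apply Complex.mem_slitPlane_of_norm_lt_one
    rw [norm_div, div_lt_one (norm_pos_iff.mpr (hLne z hz))]
    exact h z hz
  set s : ℝ × ℝ → ℂ := fun z => ((F z - y) / L z) ^ ((1 : ℂ) / 2) with hs
  have hscont : ContinuousOn s T := by
    apply ContinuousOn.cpow_const
    · apply ContinuousOn.div
      · exact (hF.mono hTsub).sub continuousOn_const
      · exact L.continuous.continuousOn
      · exact hLne
    · exact hslit
  have hs2 : ∀ z ∈ T, s z ^ 2 = (F z - y) / L z := by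
    intro z hz
    simp only [hs]
    rw [← Complex.cpow_nat_mul]
    norm_num
  have hsne : ∀ z ∈ T, s z ≠ 0 := by
    intro z hz h0
    have := hs2 z hz
    rw [h0] at this
    have h3 := Complex.slitPlane_ne_zero (hslit z hz)
    apply h3
    rw [← this]; norm_num
  set g : ℝ × ℝ → ℂ := fun z => f z / s z with hg
  have hgcont : ContinuousOn g T := hf.continuousOn.div hscont hsne
  have hFy : ∀ z ∈ T, F z - y ≠ 0 := fun z hz => sub_ne_zero.mpr (hne z (hTsub hz))
  have hg2 : ∀ z ∈ T, g z ^ 2 = L z := by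
    intro z hz
    simp only [hg]
    rw [div_pow, hf2 z, hs2 z hz, hreteq z (hTsub hz)]
    field_simp [hLne z hz, hFy z hz]
  have hneg : ∀ z ∈ T, -z ∈ T := by
    intro z hz
    simpa [hT] using hz
  have hgneg : ContinuousOn (fun z => g (-z)) T :=
    hgcont.comp continuous_neg.continuousOn hneg
  have hgne : ∀ z ∈ T, g z ≠ 0 := by
    intro z hz h0
    have := hg2 z hz
    rw [h0] at this
    exact hLne z hz (by rw [← this]; norm_num)
  have key := hTpre.eq_or_eq_neg_of_sq_eq (f := fun z => g (-z)) (g := fun z => Complex.I * g z)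
    hgneg (continuousOn_const.mul hgcont)
    (by
      intro z hz
      simp only [Pi.pow_apply]
      rw [mul_pow, hg2 z hz, hg2 (-z) (hneg z hz), map_neg, Complex.I_sq]
      ring)
    (by
      intro z hz
      exact mul_ne_zero Complex.I_ne_zero (hgne z hz))
  have hz0 : ((1 : ℝ), (0 : ℝ)) ∈ T := by simp [hT, Prod.norm_def]
  rcases key with key | key
  · have h1 := key hz0
    have h2 := key (hneg _ hz0)
    simp only [neg_neg] at h1 h2
    rw [h1, ← mul_assoc, Complex.I_mul_I] at h2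
    have := hgne _ hz0
    apply this
    linear_combination h2 / 2
  · have h1 := key hz0
    have h2 := key (hneg _ hz0)
    simp only [neg_neg, Pi.neg_apply] at h1 h2
    rw [h1] at h2
    have := hgne _ hz0
    apply this
    linear_combination (h2 + g (1, 0) * Complex.I_mul_I) / 2


lemma exists_homeo (e : (ℕ → Bool) → ℝ) (he : Continuous e) (hinj : Function.Injective e) :
    ∃ f : ℝ ≃ₜ ℝ, 0 < volume (f '' range e) := by
  classical
  have hnc : ¬ Countable ℝ := by
    rw [← Set.countable_univ_iff]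
    exact Cardinal.not_countable_real
  set J : ℝ ≃ᵐ (ℕ → Bool) := PolishSpace.measurableEquivNatBoolOfNotCountable hnc with hJ
  set j : ℝ → ℝ := fun x => e (J x) with hj
  have hjm : Measurable j := he.measurable.comp J.measurable
  have hji : Function.Injective j := hinj.comp J.injective
  set μ0 : Measure ℝ := volume.restrict (Icc (0:ℝ) 1) with hμ0
  have h1 : IsProbabilityMeasure μ0 := ⟨by simp [hμ0]⟩
  set ν : Measure ℝ := μ0.map j with hν
  have h2 : IsProbabilityMeasure ν := Measure.isProbabilityMeasure_map hjm.aemeasurable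
  have hna : ∀ x, ν {x} = 0 := by
    intro x
    rw [hν, Measure.map_apply hjm (measurableSet_singleton x)]
    have hs : (j ⁻¹' {x}).Subsingleton := by
      intro a ha b hb
      simp only [mem_preimage, mem_singleton_iff] at ha hb
      exact hji (ha.trans hb.symm)
    exact hs.measure_zero _
  have hνe : ν (range e) = 1 := by
    have hmeas : MeasurableSet (range e) := (isCompact_range he).isClosed.measurableSet
    rw [hν, Measure.map_apply hjm hmeas]
    have : j ⁻¹' (range e) = univ := by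
      ext x; simp [hj]
    rw [this]; simp
  set c := ProbabilityTheory.cdf ν with hc
  have hcm : c.measure = ν := ProbabilityTheory.measure_cdf ν
  have hcmono : Monotone c := c.mono
  have hcont : Continuous c := by
    rw [continuous_iff_continuousAt]
    intro x
    rw [hcmono.continuousAt_iff_leftLim_eq_rightLim]
    have h3 := c.measure_singleton x
    rw [hcm, hna x] at h3
    have h4 : Function.leftLim c x ≤ c x := hcmono.leftLim_le le_rfl
    have h5 : c x - Function.leftLim c x ≤ 0 := ENNReal.ofReal_eq_zero.mp h3.symm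
    rw [c.rightLim_eq x]
    linarith
  have hc0 : ∀ x, 0 ≤ c x := ProbabilityTheory.cdf_nonneg ν
  have hc1 : ∀ x, c x ≤ 1 := ProbabilityTheory.cdf_le_one ν
  set F0 : ℝ → ℝ := fun x => x + c x with hF0
  have hF0c : Continuous F0 := continuous_id.add hcont
  have hF0m : StrictMono F0 := by
    intro a b hab
    have := hcmono hab.le
    simp only [hF0]
    linarith
  have hF0s : Function.Surjective F0 := by
    apply hF0c.surjective
    · exact tendsto_atTop_mono (fun x => by
        show x ≤ F0 x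
        simp only [hF0]; linarith [hc0 x]) tendsto_id
    · exact tendsto_atBot_mono (fun x => by
        show F0 x ≤ x + 1
        simp only [hF0]; linarith [hc1 x]) (tendsto_atBot_add_const_right _ _ tendsto_id)
  set f0 : ℝ ≃o ℝ := hF0m.orderIsoOfSurjective F0 hF0s with hf0
  have hf0F : ∀ x, f0 x = F0 x := fun x => by rw [hf0]; simp
  refine ⟨f0.toHomeomorph, ?_⟩
  have hsymm : Continuous f0.symm := f0.symm.continuous
  have : IsLocallyFiniteMeasure (Measure.map f0.symm volume) := by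
    refine ⟨fun x => ⟨Ioo (x-1) (x+1), Ioo_mem_nhds (by linarith) (by linarith), ?_⟩⟩
    rw [Measure.map_apply hsymm.measurable measurableSet_Ioo]
    rw [OrderIso.preimage_Ioo]
    simp
  have hmeq : Measure.map f0.symm volume = volume + ν := by
    apply Real.measure_ext_Ioo_rat
    intro a b
    rw [Measure.map_apply hsymm.measurable measurableSet_Ioo, OrderIso.preimage_Ioo]
    simp only [OrderIso.symm_symm, Real.volume_Ioo, Measure.coe_add, Pi.add_apply]
    rw [hf0F, hf0F]
    have h6 : ν (Ioo (a:ℝ) b) = ENNReal.ofReal (c b - c a) := by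
      rw [← hcm, c.measure_Ioo]
      congr 2
      have := (hcmono.continuousAt_iff_leftLim_eq_rightLim (x := (b:ℝ))).mp hcont.continuousAt
      rw [this, c.rightLim_eq]
    rw [h6]
    rcases le_total (a:ℝ) b with hab | hab
    · rw [← ENNReal.ofReal_add (by linarith) (by linarith [hcmono hab])]
      congr 1
      simp only [hF0]; ring
    · have := hcmono hab
      rw [ENNReal.ofReal_of_nonpos, ENNReal.ofReal_of_nonpos, ENNReal.ofReal_of_nonpos]
      · simp
      · linarith
      · linarith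
      · simp only [hF0]; linarith
  have hmeas : MeasurableSet (range e) := (isCompact_range he).isClosed.measurableSet
  have himg : (f0.toHomeomorph : ℝ → ℝ) '' range e = f0.symm ⁻¹' (range e) := by
    ext x
    simp only [mem_image, mem_preimage]
    constructor
    · rintro ⟨y, hy, rfl⟩
      simpa using hy
    · intro hx
      exact ⟨f0.symm x, hx, by simp⟩
  rw [himg, ← Measure.map_apply hsymm.measurable hmeas, hmeq]
  simp only [Measure.coe_add, Pi.add_apply, hνe]
  simp


/-- digits-to-number map -/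
noncomputable def code (a : ℕ → Bool) : ℝ := ∑' n, (if a n then (1:ℝ) else 0) * (1/5 : ℝ) ^ n

lemma code_summable (a : ℕ → Bool) : Summable (fun n => (if a n then (1:ℝ) else 0) * (1/5 : ℝ) ^ n) := by
  refine Summable.of_nonneg_of_le (fun n => by positivity) (fun n => ?_)
    (summable_geometric_of_lt_one (by norm_num) (by norm_num : (1/5:ℝ) < 1))
  split_ifs <;> simp

lemma code_succ (a : ℕ → Bool) :
    code a = (if a 0 then (1:ℝ) else 0) + (1/5) * code (fun n => a (n+1)) := by
  unfold code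
  rw [(code_summable a).tsum_eq_zero_add, ← tsum_mul_left]
  congr 1
  · simp
  · apply tsum_congr
    intro n
    rw [pow_succ]; ring

lemma code_nonneg (a : ℕ → Bool) : 0 ≤ code a := tsum_nonneg (fun n => by positivity)

lemma code_le (a : ℕ → Bool) : code a ≤ 5/4 := by
  have h : code a ≤ ∑' n : ℕ, (1/5 : ℝ)^n := by
    refine (code_summable a).tsum_le_tsum (fun n => ?_) (summable_geometric_of_lt_one (by norm_num) (by norm_num))
    split_ifs <;> simp
  rw [tsum_geometric_of_lt_one (by norm_num) (by norm_num)] at h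
  linarith

lemma code_continuous : Continuous code := by
  unfold code
  refine continuous_tsum (u := fun n => (1/5:ℝ)^n) (fun n => ?_)
    (summable_geometric_of_lt_one (by norm_num) (by norm_num)) (fun n a => ?_)
  · refine Continuous.mul ?_ continuous_const
    have : (fun a : ℕ → Bool => if a n then (1:ℝ) else 0) = (fun b : Bool => if b then (1:ℝ) else 0) ∘ (fun a : ℕ → Bool => a n) := rfl
    rw [this]
    exact continuous_of_discreteTopology.comp (continuous_apply n)
  · rw [Real.norm_eq_abs, abs_of_nonneg (by positivity)]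
    split_ifs <;> simp

lemma code2_inj_aux (a b c d : ℕ → Bool) (h : code a + 2 * code b = code c + 2 * code d) :
    (a 0 = c 0 ∧ b 0 = d 0) ∧ code (fun n => a (n+1)) + 2 * code (fun n => b (n+1)) =
      code (fun n => c (n+1)) + 2 * code (fun n => d (n+1)) := by
  rw [code_succ a, code_succ b, code_succ c, code_succ d] at h
  have a1 := code_nonneg (fun n => a (n+1))
  have a2 := code_le (fun n => a (n+1))
  have b1 := code_nonneg (fun n => b (n+1))
  have b2 := code_le (fun n => b (n+1))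
  have c1 := code_nonneg (fun n => c (n+1))
  have c2 := code_le (fun n => c (n+1))
  have d1 := code_nonneg (fun n => d (n+1))
  have d2 := code_le (fun n => d (n+1))
  generalize a 0 = a0 at h ⊢
  generalize b 0 = b0 at h ⊢
  generalize c 0 = c0 at h ⊢
  generalize d 0 = d0 at h ⊢
  cases a0 <;> cases b0 <;> cases c0 <;> cases d0 <;> simp at h ⊢ <;> linarith

lemma code2_injective : Function.Injective
    (fun p : (ℕ → Bool) × (ℕ → Bool) => code p.1 + 2 * code p.2) := by
  have key : ∀ n : ℕ, ∀ a b c d : ℕ → Bool, code a + 2 * code b = code c + 2 * code d →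
      a n = c n ∧ b n = d n := by
    intro n
    induction n with
    | zero => intro a b c d h; exact (code2_inj_aux a b c d h).1
    | succ n ih =>
      intro a b c d h
      exact ih _ _ _ _ (code2_inj_aux a b c d h).2
  rintro ⟨a, b⟩ ⟨c, d⟩ h
  ext n
  · exact (key n a b c d h).1
  · exact (key n a b c d h).2

lemma code_injective : Function.Injective code := by
  intro a b h
  have := @code2_injective (a, a) (b, b) (by simp [h])
  exact (Prod.ext_iff.mp this).1

lemma exists_phi : ∃ φ : ℝ → ℝ, Continuous φ ∧ ∀ a b : ℕ → Bool, φ (code a + 2 * code b) = code b := by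
  have hc : Continuous (fun p : (ℕ → Bool) × (ℕ → Bool) => code p.1 + 2 * code p.2) :=
    (code_continuous.comp continuous_fst).add (continuous_const.mul (code_continuous.comp continuous_snd))
  have he : IsClosedEmbedding (fun p : (ℕ → Bool) × (ℕ → Bool) => code p.1 + 2 * code p.2) :=
    hc.isClosedEmbedding code2_injective
  obtain ⟨g, hg⟩ := ContinuousMap.exists_extension' he
    (⟨fun p => code p.2, code_continuous.comp continuous_snd⟩ : C((ℕ → Bool) × (ℕ → Bool), ℝ))
  refine ⟨g, g.continuous, fun a b => ?_⟩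
  exact congrFun hg (a, b)
/-- Covering lemma for a rectangle. -/
lemma cover_rect (H : ℝ × ℝ → ℝ × ℝ) (c : ℝ × ℝ) (α β : ℝ) (hα : 0 < α) (hβ : 0 < β)
    (hH : ContinuousOn H {z | |z.1 - c.1| ≤ α ∧ |z.2 - c.2| ≤ β}) (y : ℝ × ℝ)
    (hb : ∀ z : ℝ × ℝ, |z.1 - c.1| ≤ α → |z.2 - c.2| ≤ β → (|z.1 - c.1| = α ∨ |z.2 - c.2| = β) →
      ‖H z - y - (z - c)‖ ≤ (1/2) * ‖z - c‖) :
    ∃ z, (|z.1 - c.1| ≤ α ∧ |z.2 - c.2| ≤ β) ∧ H z = y := by
  set A : ℝ × ℝ → ℝ × ℝ := fun s => (c.1 + α * s.1, c.2 + β * s.2) with hA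
  have hAc : Continuous A := by fun_prop
  set toC : ℝ × ℝ → ℂ := fun v => ⟨v.1, v.2⟩ with htoC
  have htoCc : Continuous toC := by
    have : toC = fun v => Complex.equivRealProdCLM.symm v := by
      ext v; simp [htoC, Complex.equivRealProdCLM_symm_apply, Complex.ext_iff]
    rw [this]; exact Complex.equivRealProdCLM.symm.continuous
  have hball : ∀ s ∈ closedBall (0 : ℝ × ℝ) 1, |s.1| ≤ 1 ∧ |s.2| ≤ 1 := by
    intro s hs
    rw [mem_closedBall_zero_iff, Prod.norm_def] at hs
    exact ⟨le_trans (le_max_left _ _) hs, le_trans (le_max_right _ _) hs⟩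
  have hAmem : ∀ s ∈ closedBall (0 : ℝ × ℝ) 1, |(A s).1 - c.1| ≤ α ∧ |(A s).2 - c.2| ≤ β := by
    intro s hs
    obtain ⟨h1, h2⟩ := hball s hs
    simp only [hA, add_sub_cancel_left, abs_mul, abs_of_pos hα, abs_of_pos hβ]
    exact ⟨by nlinarith, by nlinarith⟩
  let L : ℝ × ℝ →L[ℝ] ℂ := (α : ℝ) • (Complex.ofRealCLM.comp (ContinuousLinearMap.fst ℝ ℝ ℝ)) +
    (β : ℝ) • (Complex.I • (Complex.ofRealCLM.comp (ContinuousLinearMap.snd ℝ ℝ ℝ)))
  have hL : ∀ s, L s = toC (α * s.1, β * s.2) := by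
    intro s
    simp only [L, htoC]
    apply Complex.ext <;> simp
  have hnorm_le : ∀ v : ℝ × ℝ, ‖toC v‖ ≤ 3/2 * ‖v‖ := by
    intro v
    rw [Complex.norm_def, Complex.normSq_mk, Prod.norm_def, Real.norm_eq_abs, Real.norm_eq_abs]
    rw [Real.sqrt_le_left (by positivity)]
    have h1 : |v.1| ≤ max |v.1| |v.2| := le_max_left _ _
    have h2 : |v.2| ≤ max |v.1| |v.2| := le_max_right _ _
    have h3 := abs_nonneg v.1
    have h4 := abs_nonneg v.2
    nlinarith [abs_mul_abs_self v.1, abs_mul_abs_self v.2]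
  have hnorm_ge : ∀ v : ℝ × ℝ, ‖v‖ ≤ ‖toC v‖ := by
    intro v
    rw [Prod.norm_def]
    exact max_le (Complex.abs_re_le_norm (toC v)) (Complex.abs_im_le_norm (toC v))
  have key := cover (fun s => toC (H (A s))) L ?_ (toC y) ?_
  · obtain ⟨s, hs, hs2⟩ := key
    refine ⟨A s, hAmem s hs, ?_⟩
    have h1 := congrArg Complex.re hs2
    have h2 := congrArg Complex.im hs2
    exact Prod.ext h1 h2
  · refine htoCc.comp_continuousOn ?_
    exact hH.comp hAc.continuousOn (fun s hs => hAmem s hs)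
  · intro s hs
    have hs' := sphere_subset_closedBall hs
    obtain ⟨h1, h2⟩ := hAmem s hs'
    have hs1 : |s.1| = 1 ∨ |s.2| = 1 := by
      rw [mem_sphere_zero_iff_norm, Prod.norm_def, Real.norm_eq_abs, Real.norm_eq_abs] at hs
      rcases max_choice |s.1| |s.2| with h | h
      · left; rw [← h, hs]
      · right; rw [← h, hs]
    have hs3 : |(A s).1 - c.1| = α ∨ |(A s).2 - c.2| = β := by
      simp only [hA, add_sub_cancel_left, abs_mul, abs_of_pos hα, abs_of_pos hβ]
      rcases hs1 with h | h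
      · left; rw [h, mul_one]
      · right; rw [h, mul_one]
    have h3 := hb (A s) h1 h2 hs3
    have hAs : A s - c = (α * s.1, β * s.2) := by
      simp only [hA]; ext <;> simp
    have hLs : L s = toC (A s - c) := by rw [hL, hAs]
    have hdiff : toC (H (A s)) - toC y - L s = toC (H (A s) - y - (A s - c)) := by
      rw [hLs]
      simp only [htoC]
      apply Complex.ext <;> simp
    rw [hdiff, hLs]
    have hpos : 0 < ‖A s - c‖ := by
      rw [norm_pos_iff, hAs]
      intro h0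
      rw [Prod.ext_iff] at h0
      simp only [Prod.fst_zero, Prod.snd_zero, mul_eq_zero] at h0
      rcases hs1 with h | h
      · rcases h0.1 with h5 | h5
        · exact hα.ne' h5
        · rw [h5] at h; norm_num at h
      · rcases h0.2 with h5 | h5
        · exact hβ.ne' h5
        · rw [h5] at h; norm_num at h
    calc ‖toC (H (A s) - y - (A s - c))‖ ≤ 3/2 * ‖H (A s) - y - (A s - c)‖ := hnorm_le _
      _ ≤ 3/2 * ((1/2) * ‖A s - c‖) := by gcongr
      _ < ‖A s - c‖ := by linarith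
      _ ≤ ‖toC (A s - c)‖ := hnorm_ge _

/-- crosses: near-identity along the horizontal and vertical arms of half-length `ρ`. -/
def Cross (H : ℝ × ℝ → ℝ × ℝ) (ρ : ℝ) (w : ℝ × ℝ) : Prop :=
  ∀ s : ℝ, |s| ≤ ρ → ‖H (w.1 + s, w.2) - H w - (s, 0)‖ ≤ |s| / 100 ∧
    ‖H (w.1, w.2 + s) - H w - (0, s)‖ ≤ |s| / 100

lemma cross_pair (H : ℝ × ℝ → ℝ × ℝ) (ρ : ℝ) (w w' : ℝ × ℝ) (hw : Cross H ρ w) (hw' : Cross H ρ w')
    (h1 : |w'.1 - w.1| ≤ ρ) (h2 : |w'.2 - w.2| ≤ ρ) :
    ‖H w' - H w - (w' - w)‖ ≤ |w'.1 - w.1| / 100 + |w'.2 - w.2| / 100 := by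
  have e1 := (hw (w'.1 - w.1) h1).1
  have e2 := (hw' (w.2 - w'.2) (by rw [abs_sub_comm]; exact h2)).2
  simp only [add_sub_cancel] at e1 e2
  have : H w' - H w - (w' - w) =
      (H (w'.1, w.2) - H w - (w'.1 - w.1, 0)) - (H (w'.1, w.2) - H w' - (0, w.2 - w'.2)) := by
    ext <;> simp <;> ring
  rw [this]
  refine (norm_sub_le _ _).trans ?_
  rw [abs_sub_comm w'.2 w.2]
  exact add_le_add e1 e2

lemma rect_cover (H : ℝ × ℝ → ℝ × ℝ) (ρ r : ℝ) (hr : 0 < r) (hρ : 2 * r ≤ ρ) (w0 w1 w2 w3 w4 : ℝ × ℝ)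
    (hH : ContinuousOn H (closedBall w0 r))
    (h0 : Cross H ρ w0) (h1 : Cross H ρ w1) (h2 : Cross H ρ w2) (h3 : Cross H ρ w3)
    (h4 : Cross H ρ w4)
    (m1 : w1 ∈ closedBall w0 r) (m2 : w2 ∈ closedBall w0 r) (m3 : w3 ∈ closedBall w0 r)
    (m4 : w4 ∈ closedBall w0 r)
    (p1 : w1.2 ≤ w0.2 - 9/10 * r) (p2 : w0.1 + 9/10 * r ≤ w2.1) (p3 : w0.2 + 9/10 * r ≤ w3.2)
    (p4 : w4.1 ≤ w0.1 - 9/10 * r) (y : ℝ × ℝ) (hy : ‖y - H w0‖ ≤ r / 10) :
    ∃ z ∈ closedBall w0 r, H z = y := by
  have hball : ∀ z : ℝ × ℝ, z ∈ closedBall w0 r ↔ |z.1 - w0.1| ≤ r ∧ |z.2 - w0.2| ≤ r := by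
    intro z
    rw [mem_closedBall, Prod.dist_eq, Real.dist_eq, Real.dist_eq, max_le_iff]
  rw [hball] at m1 m2 m3 m4
  -- near-linearity on lines through good points
  have hor : ∀ w z : ℝ × ℝ, Cross H ρ w → (|w.1 - w0.1| ≤ r ∧ |w.2 - w0.2| ≤ r) →
      (|z.1 - w0.1| ≤ r ∧ |z.2 - w0.2| ≤ r) → z.2 = w.2 →
      ‖H z - H w0 - (z - w0)‖ ≤ 4 / 100 * r := by
    intro w z hw hwb hzb hzw
    have e1 := cross_pair H ρ w0 w h0 hw (by linarith [hwb.1]) (by linarith [hwb.2])
    have hd : |z.1 - w.1| ≤ 2 * r := by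
      have := abs_sub_le z.1 w0.1 w.1
      rw [abs_sub_comm w0.1 w.1] at this
      linarith [hwb.1, hzb.1]
    have e2 := (hw (z.1 - w.1) (by linarith)).1
    simp only [add_sub_cancel] at e2
    have hz : (z.1, w.2) = z := by rw [← hzw]
    rw [hz] at e2
    have : H z - H w0 - (z - w0) = (H z - H w - (z.1 - w.1, 0)) + (H w - H w0 - (w - w0)) := by
      ext <;> simp [hzw] <;> ring
    rw [this]
    refine (norm_add_le _ _).trans ?_
    linarith [hwb.1, hwb.2]
  have ver : ∀ w z : ℝ × ℝ, Cross H ρ w → (|w.1 - w0.1| ≤ r ∧ |w.2 - w0.2| ≤ r) →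
      (|z.1 - w0.1| ≤ r ∧ |z.2 - w0.2| ≤ r) → z.1 = w.1 →
      ‖H z - H w0 - (z - w0)‖ ≤ 4 / 100 * r := by
    intro w z hw hwb hzb hzw
    have e1 := cross_pair H ρ w0 w h0 hw (by linarith [hwb.1]) (by linarith [hwb.2])
    have hd : |z.2 - w.2| ≤ 2 * r := by
      have := abs_sub_le z.2 w0.2 w.2
      rw [abs_sub_comm w0.2 w.2] at this
      linarith [hwb.2, hzb.2]
    have e2 := (hw (z.2 - w.2) (by linarith)).2
    simp only [add_sub_cancel] at e2
    have hz : (w.1, z.2) = z := by rw [← hzw]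
    rw [hz] at e2
    have : H z - H w0 - (z - w0) = (H z - H w - (0, z.2 - w.2)) + (H w - H w0 - (w - w0)) := by
      ext <;> simp [hzw] <;> ring
    rw [this]
    refine (norm_add_le _ _).trans ?_
    linarith [hwb.1, hwb.2]
  set c : ℝ × ℝ := ((w4.1 + w2.1) / 2, (w1.2 + w3.2) / 2) with hc
  set α := (w2.1 - w4.1) / 2 with hα
  set β := (w3.2 - w1.2) / 2 with hβ
  have hα1 : 9/10 * r ≤ α := by rw [hα]; linarith
  have hβ1 : 9/10 * r ≤ β := by rw [hβ]; linarith
  rw [abs_le, abs_le] at m1 m2 m3 m4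
  have hsub : ∀ z : ℝ × ℝ, |z.1 - c.1| ≤ α → |z.2 - c.2| ≤ β → (|z.1 - w0.1| ≤ r ∧ |z.2 - w0.2| ≤ r) := by
    intro z hz1 hz2
    rw [abs_le] at hz1 hz2
    simp only [hc, hα, hβ] at hz1 hz2
    rw [abs_le, abs_le]
    refine ⟨⟨?_, ?_⟩, ⟨?_, ?_⟩⟩ <;> linarith [m1.1.1, m1.1.2, m1.2.1, m1.2.2, m2.1.1, m2.1.2, m2.2.1, m2.2.2,
      m3.1.1, m3.1.2, m3.2.1, m3.2.2, m4.1.1, m4.1.2, m4.2.1, m4.2.2, hz1.1, hz1.2, hz2.1, hz2.2]
  have hcw : ‖c - w0‖ ≤ 1/20 * r := by
    rw [Prod.norm_def]
    apply max_le <;> rw [Real.norm_eq_abs, abs_le] <;> simp only [hc, Prod.fst_sub, Prod.snd_sub] <;>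
      constructor <;> linarith [m1.1.1, m1.1.2, m1.2.1, m1.2.2, m2.1.1, m2.1.2, m2.2.1, m2.2.2,
      m3.1.1, m3.1.2, m3.2.1, m3.2.2, m4.1.1, m4.1.2, m4.2.1, m4.2.2]
  have key := cover_rect H c α β (by linarith) (by linarith)
    (hH.mono (fun z hz => (hball z).mpr (hsub z hz.1 hz.2))) y ?_
  · obtain ⟨z, hz, hzy⟩ := key
    exact ⟨z, (hball z).mpr (hsub z hz.1 hz.2), hzy⟩
  · intro z hz1 hz2 hz3
    have hzb := hsub z hz1 hz2
    have hlin : ‖H z - H w0 - (z - w0)‖ ≤ 4 / 100 * r := by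
      rcases hz3 with hz3 | hz3
      · rcases abs_choice (z.1 - c.1) with h | h
        · rw [h] at hz3
          apply ver w2 z h2 (by rw [abs_le, abs_le]; exact m2) hzb
          simp only [hc, hα] at hz3; linarith
        · rw [h] at hz3
          apply ver w4 z h4 (by rw [abs_le, abs_le]; exact m4) hzb
          simp only [hc, hα] at hz3; linarith
      · rcases abs_choice (z.2 - c.2) with h | h
        · rw [h] at hz3
          apply hor w3 z h3 (by rw [abs_le, abs_le]; exact m3) hzb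
          simp only [hc, hβ] at hz3; linarith
        · rw [h] at hz3
          apply hor w1 z h1 (by rw [abs_le, abs_le]; exact m1) hzb
          simp only [hc, hβ] at hz3; linarith
    have hge : 9/10 * r ≤ ‖z - c‖ := by
      rw [Prod.norm_def]
      rcases hz3 with hz3 | hz3
      · refine le_trans ?_ (le_max_left _ _)
        rw [Real.norm_eq_abs, Prod.fst_sub, hz3]; exact hα1
      · refine le_trans ?_ (le_max_right _ _)
        rw [Real.norm_eq_abs, Prod.snd_sub, hz3]; exact hβ1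
    have : H z - y - (z - c) = (H z - H w0 - (z - w0)) + (-(y - H w0)) + (c - w0) := by abel
    rw [this]
    refine (norm_add₃_le).trans ?_
    rw [norm_neg]
    linarith
lemma ratio_le (A : Set (ℝ × ℝ)) (x : ℝ × ℝ) (r : ℝ) (hr : 0 < r) (a b c d : ℝ) (hab : a ≤ b)
    (hsub : A ∩ closedBall x r ⊆ Icc a b ×ˢ Icc c d)
    (hle : (b - a) * (d - c) ≤ 19/20 * (2 * r * (2 * r))) :
    volume (A ∩ closedBall x r) / volume (closedBall x r) ≤ ENNReal.ofReal (19/20) := by
  have hb : volume (closedBall x r) = ENNReal.ofReal (2 * r * (2 * r)) := by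
    rw [← Prod.mk.eta (p := x), ← closedBall_prod_same, Measure.volume_eq_prod, Measure.prod_prod,
      Real.volume_closedBall, Real.volume_closedBall, ← ENNReal.ofReal_mul (by positivity)]
  apply ENNReal.div_le_of_le_mul
  rw [hb, ← ENNReal.ofReal_mul (by norm_num)]
  refine (measure_mono hsub).trans ?_
  rw [Measure.volume_eq_prod, Measure.prod_prod, Real.volume_Icc, Real.volume_Icc,
    ← ENNReal.ofReal_mul (by linarith)]
  exact ENNReal.ofReal_le_ofReal hle

lemma exists_dense_points (A : Set (ℝ × ℝ)) : ∀ᵐ x ∂(volume.restrict A), ∀ᶠ r in 𝓝[>] (0:ℝ),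
    (∃ w ∈ A ∩ closedBall x r, w.2 ≤ x.2 - 9/10 * r) ∧
    (∃ w ∈ A ∩ closedBall x r, x.1 + 9/10 * r ≤ w.1) ∧
    (∃ w ∈ A ∩ closedBall x r, x.2 + 9/10 * r ≤ w.2) ∧
    (∃ w ∈ A ∩ closedBall x r, w.1 ≤ x.1 - 9/10 * r) := by
  filter_upwards [Besicovitch.ae_tendsto_measure_inter_div (volume : Measure (ℝ × ℝ)) A] with x hx
  have hlt : ENNReal.ofReal (19/20) < 1 := by
    rw [ENNReal.ofReal_lt_one]; norm_num
  have hev := hx.eventually (lt_mem_nhds hlt)
  filter_upwards [hev, self_mem_nhdsWithin] with r hr hr0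
  simp only [mem_Ioi] at hr0
  have hball : ∀ z : ℝ × ℝ, z ∈ closedBall x r → (x.1 - r ≤ z.1 ∧ z.1 ≤ x.1 + r) ∧
      (x.2 - r ≤ z.2 ∧ z.2 ≤ x.2 + r) := by
    intro z hz
    rw [mem_closedBall, Prod.dist_eq, Real.dist_eq, Real.dist_eq, max_le_iff, abs_le, abs_le] at hz
    refine ⟨⟨?_, ?_⟩, ⟨?_, ?_⟩⟩ <;> linarith [hz.1.1, hz.1.2, hz.2.1, hz.2.2]
  refine ⟨?_, ?_, ?_, ?_⟩
  · by_contra hcon
    push Not at hcon
    refine absurd (ratio_le A x r hr0 (x.1 - r) (x.1 + r) (x.2 - 9/10 * r) (x.2 + r) (by linarith)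
      ?_ (by nlinarith)) (not_le.mpr hr)
    intro z hz
    have := hball z hz.2
    exact ⟨⟨this.1.1, this.1.2⟩, ⟨(hcon z hz).le, this.2.2⟩⟩
  · by_contra hcon
    push Not at hcon
    refine absurd (ratio_le A x r hr0 (x.1 - r) (x.1 + 9/10 * r) (x.2 - r) (x.2 + r) (by linarith)
      ?_ (by nlinarith)) (not_le.mpr hr)
    intro z hz
    have := hball z hz.2
    exact ⟨⟨this.1.1, (hcon z hz).le⟩, ⟨this.2.1, this.2.2⟩⟩
  · by_contra hcon
    push Not at hcon
    refine absurd (ratio_le A x r hr0 (x.1 - r) (x.1 + r) (x.2 - r) (x.2 + 9/10 * r) (by linarith)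
      ?_ (by nlinarith)) (not_le.mpr hr)
    intro z hz
    have := hball z hz.2
    exact ⟨⟨this.1.1, this.1.2⟩, ⟨this.2.1, (hcon z hz).le⟩⟩
  · by_contra hcon
    push Not at hcon
    refine absurd (ratio_le A x r hr0 (x.1 - 9/10 * r) (x.1 + r) (x.2 - r) (x.2 + r) (by linarith)
      ?_ (by nlinarith)) (not_le.mpr hr)
    intro z hz
    have := hball z hz.2
    exact ⟨⟨(hcon z hz).le, this.1.2⟩, ⟨this.2.1, this.2.2⟩⟩

lemma null_of_cross (F : ℝ × ℝ → ℝ × ℝ) (P : ℝ × ℝ →L[ℝ] ℝ × ℝ) (hP : Function.Injective P)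
    (D : Set (ℝ × ℝ)) (hD : IsOpen D) (hF : ContinuousOn F D) (Ω : Set (ℝ × ℝ))
    (hΩ : ∀ w ∈ D, F w ∈ Ω) (ρ : ℝ) (hρ : 0 < ρ) (A : Set (ℝ × ℝ))
    (hA : ∀ w ∈ A, w ∈ D ∧ Cross (fun z => P (F z)) ρ w ∧ F w ∈ closure Ωᶜ) :
    volume A = 0 := by
  rw [← Measure.restrict_apply_self]
  have h := exists_dense_points A
  refine measure_mono_null ?_ h
  intro x hxA hx
  simp only [mem_ofPred_eq] at hx
  obtain ⟨hxD, hxc, hxΩ⟩ := hA x hxA
  have hDev : ∀ᶠ r in 𝓝[>] (0:ℝ), closedBall x r ⊆ D := by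
    obtain ⟨δ, hδ, hsub⟩ := Metric.isOpen_iff.mp hD x hxD
    filter_upwards [Ioo_mem_nhdsGT hδ] with r hr
    exact (closedBall_subset_ball hr.2).trans hsub
  have hρev : ∀ᶠ r in 𝓝[>] (0:ℝ), 2 * r ≤ ρ := by
    filter_upwards [Ioo_mem_nhdsGT (show (0:ℝ) < ρ / 2 by linarith)] with r hr
    linarith [hr.2]
  obtain ⟨r, hr, hrD, hrρ, hr0⟩ := (hx.and (hDev.and (hρev.and self_mem_nhdsWithin))).exists
  replace hr0 : 0 < r := hr0
  obtain ⟨⟨w1, hw1, p1⟩, ⟨w2, hw2, p2⟩, ⟨w3, hw3, p3⟩, ⟨w4, hw4, p4⟩⟩ := hr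
  -- choose y outside Ω near F x
  have hnear : ∀ᶠ y in 𝓝 (F x), ‖P y - P (F x)‖ ≤ r / 10 := by
    have : Tendsto (fun y => ‖P y - P (F x)‖) (𝓝 (F x)) (𝓝 ‖P (F x) - P (F x)‖) :=
      ((P.continuous.sub continuous_const).norm).tendsto _
    rw [sub_self, norm_zero] at this
    exact (this.eventually (gt_mem_nhds (show (0:ℝ) < r / 10 by linarith))).mono (fun _ h => h.le)
  obtain ⟨y, hy1, hy2⟩ := (mem_closure_iff_frequently.mp hxΩ).and_eventually hnear |>.exists
  obtain ⟨z, hz, hzy⟩ := rect_cover (fun z => P (F z)) ρ r hr0 hrρ x w1 w2 w3 w4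
    (P.continuous.comp_continuousOn (hF.mono hrD)) hxc (hA w1 hw1.1).2.1 (hA w2 hw2.1).2.1
    (hA w3 hw3.1).2.1 (hA w4 hw4.1).2.1 hw1.2 hw2.2 hw3.2 hw4.2 p1 p2 p3 p4 (P y) hy2
  have : F z = y := hP hzy
  exact hy1 (this ▸ hΩ z (hrD hz))

lemma null_image (F : ℝ × ℝ → ℝ × ℝ) (A : Set (ℝ × ℝ)) (hA : volume A = 0) (ρ : ℝ) (hρ : 0 < ρ)
    (K : NNReal) (hK : ∀ w ∈ A, ∀ s : ℝ, |s| ≤ ρ → ‖F (w.1 + s, w.2) - F w‖ ≤ K * |s| ∧
      ‖F (w.1, w.2 + s) - F w‖ ≤ K * |s|) : volume (F '' A) = 0 := by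
  set m : OuterMeasure (ℝ × ℝ) := OuterMeasure.comap F (volume : Measure (ℝ × ℝ)).toOuterMeasure with hm
  have hmA : ∀ s, m s = volume (F '' s) := fun s => by
    rw [hm, OuterMeasure.comap_apply]; rfl
  rw [← hmA]
  apply measure_null_of_locally_null
  intro x _
  refine ⟨A ∩ ball x (ρ/2), inter_mem_nhdsWithin A (ball_mem_nhds x (by linarith)), ?_⟩
  rw [hmA]
  have hlip : LipschitzOnWith (2 * K) F (A ∩ ball x (ρ/2)) := by
    apply LipschitzOnWith.of_dist_le_mul
    intro a ha b hb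
    have hab : dist a b < ρ := by
      have h1 := dist_triangle_right a b x
      have h2 : dist a x < ρ / 2 := ha.2
      have h3 : dist b x < ρ / 2 := hb.2
      linarith
    rw [Prod.dist_eq, Real.dist_eq, Real.dist_eq, max_lt_iff] at hab
    have e1 := (hK a ha.1 (b.1 - a.1) (by rw [abs_sub_comm]; exact hab.1.le)).1
    have e2 := (hK b hb.1 (a.2 - b.2) hab.2.le).2
    simp only [add_sub_cancel] at e1 e2
    rw [dist_eq_norm]
    have : F a - F b = (F (b.1, a.2) - F b) - (F (b.1, a.2) - F a) := by abel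
    rw [this]
    refine (norm_sub_le _ _).trans ?_
    have h1 : |b.1 - a.1| ≤ dist a b := by
      rw [Prod.dist_eq, Real.dist_eq, Real.dist_eq, abs_sub_comm]; exact le_max_left _ _
    have h2 : |a.2 - b.2| ≤ dist a b := by
      rw [Prod.dist_eq, Real.dist_eq, Real.dist_eq]; exact le_max_right _ _
    have hK0 : (0:ℝ) ≤ K := K.2
    push_cast
    nlinarith
  have h2 := hlip.hausdorffMeasure_image_le (d := 2) (by norm_num)
  rw [hausdorffMeasure_prod_real, measure_mono_null inter_subset_left hA, mul_zero] at h2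
  exact le_antisymm h2 zero_le
/-- The linear map of the plane with a given rational matrix. -/
noncomputable def ratMap (q : ℚ × ℚ × ℚ × ℚ) : ℝ × ℝ →L[ℝ] ℝ × ℝ :=
  ((q.1 : ℝ) • ContinuousLinearMap.fst ℝ ℝ ℝ + (q.2.1 : ℝ) • ContinuousLinearMap.snd ℝ ℝ ℝ).prod
  ((q.2.2.1 : ℝ) • ContinuousLinearMap.fst ℝ ℝ ℝ + (q.2.2.2 : ℝ) • ContinuousLinearMap.snd ℝ ℝ ℝ)

lemma ratMap_apply (q : ℚ × ℚ × ℚ × ℚ) (v : ℝ × ℝ) :
    ratMap q v = ((q.1 : ℝ) * v.1 + q.2.1 * v.2, (q.2.2.1 : ℝ) * v.1 + q.2.2.2 * v.2) := by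
  simp [ratMap]

lemma exists_ratMap (a b : ℝ × ℝ) (hdet : a.1 * b.2 - a.2 * b.1 ≠ 0) :
    ∃ q, Function.Injective (ratMap q) ∧ ‖ratMap q a - (1, 0)‖ ≤ 1/200 ∧
      ‖ratMap q b - (0, 1)‖ ≤ 1/200 := by
  set Δ := a.1 * b.2 - a.2 * b.1 with hΔ
  set M := |a.1| + |a.2| + |b.1| + |b.2| + 1 with hM
  have hMpos : 0 < M := by positivity
  have hη : 0 < 1 / (200 * M) := by positivity
  have happrox : ∀ x : ℝ, ∃ q : ℚ, |(q:ℝ) - x| < 1 / (200 * M) := by
    intro x
    obtain ⟨q, hq1, hq2⟩ := exists_rat_btwn (show x < x + 1 / (200 * M) by linarith)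
    exact ⟨q, by rw [abs_lt]; constructor <;> linarith⟩
  obtain ⟨q1, h1⟩ := happrox (b.2 / Δ)
  obtain ⟨q2, h2⟩ := happrox (-b.1 / Δ)
  obtain ⟨q3, h3⟩ := happrox (-a.2 / Δ)
  obtain ⟨q4, h4⟩ := happrox (a.1 / Δ)
  have hb : ∀ (x y u v : ℝ), |x| < 1 / (200 * M) → |y| < 1 / (200 * M) → |u| + |v| ≤ M →
      |x * u + y * v| ≤ 1/200 := by
    intro x y u v hx hy huv
    calc |x * u + y * v| ≤ |x| * |u| + |y| * |v| := by
          rw [← abs_mul, ← abs_mul]; exact abs_add_le _ _
      _ ≤ 1 / (200 * M) * |u| + 1 / (200 * M) * |v| := by gcongr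
      _ = 1 / (200 * M) * (|u| + |v|) := by ring
      _ ≤ 1 / (200 * M) * M := by gcongr
      _ = 1/200 := by field_simp
  have e1 : |(q1:ℝ) * a.1 + q2 * a.2 - 1| ≤ 1/200 := by
    have : (q1:ℝ) * a.1 + q2 * a.2 - 1 = (q1 - b.2 / Δ) * a.1 + (q2 - -b.1 / Δ) * a.2 := by
      have : b.2 / Δ * a.1 + (-b.1 / Δ) * a.2 = 1 := by
        field_simp; rw [hΔ]; ring
      linear_combination this
    rw [this]
    exact hb _ _ _ _ h1 h2 (by rw [hM]; linarith [abs_nonneg b.1, abs_nonneg b.2])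
  have e2 : |(q3:ℝ) * a.1 + q4 * a.2| ≤ 1/200 := by
    have : (q3:ℝ) * a.1 + q4 * a.2 = (q3 - -a.2 / Δ) * a.1 + (q4 - a.1 / Δ) * a.2 := by
      ring
    rw [this]
    exact hb _ _ _ _ h3 h4 (by rw [hM]; linarith [abs_nonneg b.1, abs_nonneg b.2])
  have e3 : |(q1:ℝ) * b.1 + q2 * b.2| ≤ 1/200 := by
    have : (q1:ℝ) * b.1 + q2 * b.2 = (q1 - b.2 / Δ) * b.1 + (q2 - -b.1 / Δ) * b.2 := by
      ring
    rw [this]
    exact hb _ _ _ _ h1 h2 (by rw [hM]; linarith [abs_nonneg a.1, abs_nonneg a.2])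
  have e4 : |(q3:ℝ) * b.1 + q4 * b.2 - 1| ≤ 1/200 := by
    have : (q3:ℝ) * b.1 + q4 * b.2 - 1 = (q3 - -a.2 / Δ) * b.1 + (q4 - a.1 / Δ) * b.2 := by
      have : -a.2 / Δ * b.1 + (a.1 / Δ) * b.2 = 1 := by
        field_simp; rw [hΔ]; ring
      linear_combination this
    rw [this]
    exact hb _ _ _ _ h3 h4 (by rw [hM]; linarith [abs_nonneg a.1, abs_nonneg a.2])
  refine ⟨(q1, q2, q3, q4), ?_, ?_, ?_⟩
  · have hd : ((q1:ℝ) * q4 - q2 * q3) ≠ 0 := by
      intro h0
      have hprod : ((q1:ℝ) * a.1 + q2 * a.2) * (q3 * b.1 + q4 * b.2) -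
          (q3 * a.1 + q4 * a.2) * (q1 * b.1 + q2 * b.2) = 0 := by
        have : ((q1:ℝ) * a.1 + q2 * a.2) * (q3 * b.1 + q4 * b.2) -
          (q3 * a.1 + q4 * a.2) * (q1 * b.1 + q2 * b.2) = (q1 * q4 - q2 * q3) * Δ := by
          rw [hΔ]; ring
        rw [this, h0, zero_mul]
      rw [abs_le] at e1 e2 e3 e4
      nlinarith [e1.1, e1.2, e2.1, e2.2, e3.1, e3.2, e4.1, e4.2,
        mul_nonneg (sub_nonneg.mpr e1.1) (sub_nonneg.mpr e4.1),
        mul_nonneg (sub_nonneg.mpr e2.1) (sub_nonneg.mpr e3.1),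
        mul_nonneg (sub_nonneg.mpr e2.2) (sub_nonneg.mpr e3.2),
        mul_nonneg (sub_nonneg.mpr e2.1) (sub_nonneg.mpr e3.2),
        mul_nonneg (sub_nonneg.mpr e2.2) (sub_nonneg.mpr e3.1)]
    rw [injective_iff_map_eq_zero]
    intro v hv
    rw [ratMap_apply, Prod.ext_iff] at hv
    simp only [Prod.fst_zero, Prod.snd_zero] at hv
    have hv1 : ((q1:ℝ) * q4 - q2 * q3) * v.1 = 0 := by linear_combination (q4:ℝ) * hv.1 - q2 * hv.2
    have hv2 : ((q1:ℝ) * q4 - q2 * q3) * v.2 = 0 := by linear_combination (q1:ℝ) * hv.2 - q3 * hv.1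
    exact Prod.ext ((mul_eq_zero.mp hv1).resolve_left hd) ((mul_eq_zero.mp hv2).resolve_left hd)
  · rw [ratMap_apply, Prod.norm_def]
    apply max_le
    · simpa using e1
    · simpa using e2
  · rw [ratMap_apply, Prod.norm_def]
    apply max_le
    · simpa using e3
    · simpa using e4

lemma eventually_abs_le {P : ℝ → Prop} (h : ∀ᶠ s in 𝓝 (0:ℝ), P s) :
    ∃ N : ℕ, ∀ n ≥ N, ∀ s : ℝ, |s| ≤ 1 / ((n:ℝ) + 1) → P s := by
  obtain ⟨δ, hδ, hsub⟩ := Metric.eventually_nhds_iff.mp h
  obtain ⟨N, hN⟩ := exists_nat_one_div_lt hδ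
  refine ⟨N, fun n hn s hs => hsub ?_⟩
  rw [Real.dist_eq, sub_zero]
  refine lt_of_le_of_lt hs (lt_of_le_of_lt ?_ hN)
  have : (N:ℝ) ≤ n := by exact_mod_cast hn
  gcongr

/-- difference quotient estimate from a derivative -/
lemma deriv_est (k : ℝ → ℝ × ℝ) (x : ℝ) (a : ℝ × ℝ) (h : HasDerivAt k a x) (c : ℝ) (hc : 0 < c) :
    ∀ᶠ s in 𝓝 (0:ℝ), ‖k (x + s) - k x - s • a‖ ≤ c * |s| := by
  have h1 := (hasDerivAt_iff_isLittleO_nhds_zero.mp h).def hc
  simpa using h1

theorem null_main (F : ℝ × ℝ → ℝ × ℝ) (D : Set (ℝ × ℝ)) (hD : IsOpen D) (hF : ContinuousOn F D)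
    (Ω : Set (ℝ × ℝ)) (hΩ : ∀ w ∈ D, F w ∈ Ω) :
    volume (F '' {w | w ∈ D ∧ F w ∈ closure Ωᶜ ∧ ∃ a b : ℝ × ℝ,
      HasDerivAt (fun t => F (t, w.2)) a w.1 ∧ HasDerivAt (fun t => F (w.1, t)) b w.2 ∧
      a.1 * b.2 - a.2 * b.1 ≠ 0}) = 0 := by
  set S : ℕ → ℚ × ℚ × ℚ × ℚ → Set (ℝ × ℝ) := fun n q =>
    {w | Function.Injective (ratMap q) ∧ w ∈ D ∧ Cross (fun z => ratMap q (F z)) (1 / ((n:ℝ) + 1)) w ∧
      F w ∈ closure Ωᶜ ∧ ∀ s : ℝ, |s| ≤ 1 / ((n:ℝ) + 1) →
        ‖F (w.1 + s, w.2) - F w‖ ≤ ((n:ℝ) + 1) * |s| ∧ ‖F (w.1, w.2 + s) - F w‖ ≤ ((n:ℝ) + 1) * |s|} with hS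
  have hSnull : ∀ n q, volume (F '' S n q) = 0 := by
    intro n q
    by_cases hq : Function.Injective (ratMap q)
    · have h1 : volume (S n q) = 0 :=
        null_of_cross F (ratMap q) hq D hD hF Ω hΩ (1 / ((n:ℝ) + 1)) (by positivity) (S n q)
          (fun w hw => ⟨hw.2.1, hw.2.2.1, hw.2.2.2.1⟩)
      refine null_image F (S n q) h1 (1 / ((n:ℝ) + 1)) (by positivity) ((n : NNReal) + 1) ?_
      intro w hw s hs
      have := hw.2.2.2.2 s hs
      push_cast
      exact this
    · have : S n q = ∅ := by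
        ext w; simp only [hS, mem_ofPred_eq, mem_empty_iff_false, iff_false]
        exact fun h => hq h.1
      rw [this]; simp
  refine measure_mono_null (t := ⋃ n, ⋃ q, F '' S n q) ?_
    (measure_iUnion_null fun n => measure_iUnion_null fun q => hSnull n q)
  rintro _ ⟨w, ⟨hwD, hwΩ, a, b, ha, hb, hdet⟩, rfl⟩
  obtain ⟨q, hqi, hqa, hqb⟩ := exists_ratMap a b hdet
  have ha' : HasDerivAt (fun t => ratMap q (F (t, w.2))) (ratMap q a) w.1 :=
    (ratMap q).hasFDerivAt.comp_hasDerivAt w.1 ha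
  have hb' : HasDerivAt (fun t => ratMap q (F (w.1, t))) (ratMap q b) w.2 :=
    (ratMap q).hasFDerivAt.comp_hasDerivAt w.2 hb
  obtain ⟨N1, hN1⟩ := eventually_abs_le (deriv_est _ _ _ ha' (1/200) (by norm_num))
  obtain ⟨N2, hN2⟩ := eventually_abs_le (deriv_est _ _ _ hb' (1/200) (by norm_num))
  obtain ⟨N3, hN3⟩ := eventually_abs_le (deriv_est _ _ _ ha 1 (by norm_num))
  obtain ⟨N4, hN4⟩ := eventually_abs_le (deriv_est _ _ _ hb 1 (by norm_num))
  obtain ⟨N5, hN5⟩ := exists_nat_ge (‖a‖ + ‖b‖)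
  set n := max N1 (max N2 (max N3 (max N4 N5))) with hn
  have hn1 : N1 ≤ n := le_max_left _ _
  have hn2 : N2 ≤ n := (le_max_left _ _).trans (le_max_right _ _)
  have hn3 : N3 ≤ n := (le_max_left _ _).trans ((le_max_right _ _).trans (le_max_right _ _))
  have hn4 : N4 ≤ n := (le_max_left _ _).trans ((le_max_right _ _).trans
    ((le_max_right _ _).trans (le_max_right _ _)))
  have hn5 : N5 ≤ n := (le_max_right _ _).trans ((le_max_right _ _).trans
    ((le_max_right _ _).trans (le_max_right _ _)))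
  have hn5' : ‖a‖ + ‖b‖ ≤ n := hN5.trans (by exact_mod_cast hn5)
  simp only [mem_iUnion]
  refine ⟨n, q, w, ⟨hqi, hwD, ?_, hwΩ, ?_⟩, rfl⟩
  · intro s hs
    have e1 := hN1 n hn1 s hs
    have e2 := hN2 n hn2 s hs
    simp only [Prod.mk.eta] at e1 e2
    constructor
    · have : ratMap q (F (w.1 + s, w.2)) - ratMap q (F w) - (s, 0) =
          (ratMap q (F (w.1 + s, w.2)) - ratMap q (F w) - s • ratMap q a) +
            s • (ratMap q a - (1, 0)) := by
        rw [smul_sub]
        have : s • ((1:ℝ), (0:ℝ)) = (s, 0) := by simp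
        rw [this]; abel
      rw [this]
      refine (norm_add_le _ _).trans ?_
      rw [norm_smul, Real.norm_eq_abs]
      have : |s| * ‖ratMap q a - (1, 0)‖ ≤ |s| * (1/200) := by gcongr
      linarith
    · have : ratMap q (F (w.1, w.2 + s)) - ratMap q (F w) - (0, s) =
          (ratMap q (F (w.1, w.2 + s)) - ratMap q (F w) - s • ratMap q b) +
            s • (ratMap q b - (0, 1)) := by
        rw [smul_sub]
        have : s • ((0:ℝ), (1:ℝ)) = (0, s) := by simp
        rw [this]; abel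
      rw [this]
      refine (norm_add_le _ _).trans ?_
      rw [norm_smul, Real.norm_eq_abs]
      have : |s| * ‖ratMap q b - (0, 1)‖ ≤ |s| * (1/200) := by gcongr
      linarith
  · intro s hs
    have e3 := hN3 n hn3 s hs
    have e4 := hN4 n hn4 s hs
    simp only [Prod.mk.eta] at e3 e4
    constructor
    · have : F (w.1 + s, w.2) - F w = (F (w.1 + s, w.2) - F w - s • a) + s • a := by abel
      rw [this]
      refine (norm_add_le _ _).trans ?_
      rw [norm_smul, Real.norm_eq_abs]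
      nlinarith [abs_nonneg s, norm_nonneg a, norm_nonneg b]
    · have : F (w.1, w.2 + s) - F w = (F (w.1, w.2 + s) - F w - s • b) + s • b := by abel
      rw [this]
      refine (norm_add_le _ _).trans ?_
      rw [norm_smul, Real.norm_eq_abs]
      nlinarith [abs_nonneg s, norm_nonneg a, norm_nonneg b]


lemma angle_lt {E : Type*} [NormedAddCommGroup E] [InnerProductSpace ℝ E] (ε : ℝ) (hε : 0 < ε) :
    ∃ η > 0, ∀ x v : E, v ≠ 0 → ‖x - v‖ ≤ η * ‖v‖ → InnerProductGeometry.angle x v < ε := by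
  set ε' := min ε 1 with hε'
  have hε'0 : 0 < ε' := lt_min hε one_pos
  have hcos : Real.cos ε' < 1 := by
    have : ε' ≤ 1 := min_le_right _ _
    rw [← Real.cos_zero]
    exact Real.cos_lt_cos_of_nonneg_of_le_pi le_rfl (by linarith [Real.pi_gt_three]) hε'0
  refine ⟨min ((1 - Real.cos ε') / 4) (1/2), lt_min (by linarith) (by norm_num), ?_⟩
  intro x v hv hxv
  set η := min ((1 - Real.cos ε') / 4) (1/2) with hη
  have hη0 : 0 < η := lt_min (by linarith) (by norm_num)
  have hη1 : η ≤ (1 - Real.cos ε') / 4 := min_le_left _ _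
  have hη2 : η ≤ 1/2 := min_le_right _ _
  have hv0 : 0 < ‖v‖ := norm_pos_iff.mpr hv
  have hx1 : ‖x‖ ≤ (1 + η) * ‖v‖ := by
    have : x = (x - v) + v := by abel
    calc ‖x‖ = ‖(x - v) + v‖ := by rw [← this]
      _ ≤ ‖x - v‖ + ‖v‖ := norm_add_le _ _
      _ ≤ (1 + η) * ‖v‖ := by linarith
  have hx0 : 0 < ‖x‖ := by
    have h1 : ‖v‖ ≤ ‖x - v‖ + ‖x‖ := by
      have : v = x - (x - v) := by abel
      calc ‖v‖ = ‖x - (x - v)‖ := by rw [← this]
        _ ≤ ‖x‖ + ‖x - v‖ := norm_sub_le _ _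
        _ = _ := by ring
    nlinarith
  have hinner : (1 - η) * ‖v‖ ^ 2 ≤ inner ℝ x v := by
    have h1 : inner ℝ x v = inner ℝ (x - v) v + ‖v‖ ^ 2 := by
      rw [inner_sub_left, real_inner_self_eq_norm_sq]; ring
    have h2 : |inner ℝ (x - v) v| ≤ ‖x - v‖ * ‖v‖ := abs_real_inner_le_norm _ _
    rw [abs_le] at h2
    rw [h1]
    nlinarith [h2.1]
  have hlt : Real.cos ε' < inner ℝ x v / (‖x‖ * ‖v‖) := by
    rw [lt_div_iff₀ (by positivity)]
    have h3 : Real.cos ε' * (‖x‖ * ‖v‖) < (1 - η) * ‖v‖ ^ 2 := by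
      rcases le_or_gt (Real.cos ε') 0 with h | h
      · have h4 : Real.cos ε' * (‖x‖ * ‖v‖) ≤ 0 :=
          mul_nonpos_of_nonpos_of_nonneg h (by positivity)
        have : 0 < (1 - η) * ‖v‖ ^ 2 := by
          apply mul_pos (by linarith) (by positivity)
        linarith
      · have h4 : Real.cos ε' * (‖x‖ * ‖v‖) ≤ Real.cos ε' * ((1 + η) * ‖v‖ * ‖v‖) := by gcongr
        have h5 : Real.cos ε' * (1 + η) < 1 - η := by nlinarith
        nlinarith [pow_pos hv0 2]
    linarith
  have : InnerProductGeometry.angle x v < ε' := by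
    unfold InnerProductGeometry.angle
    have h6 : Real.arccos (inner ℝ x v / (‖x‖ * ‖v‖)) < Real.arccos (Real.cos ε') := by
      apply Real.arccos_lt_arccos (Real.neg_one_le_cos _) hlt
      rw [div_le_one (by positivity)]
      exact real_inner_le_norm _ _
    rwa [Real.arccos_cos hε'0.le (by linarith [min_le_right ε 1, Real.pi_gt_three])] at h6
  exact lt_of_lt_of_le this (min_le_left _ _)

/-- the graph plane of a linear functional `ℓ` on the plane -/
noncomputable def graphMap (ℓ : ℝ × ℝ →L[ℝ] ℝ) : ℝ × ℝ →ₗ[ℝ] EuclideanSpace ℝ (Fin 3) where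
  toFun v := !₂[v.1, v.2, ℓ v]
  map_add' x y := by ext i; fin_cases i <;> simp
  map_smul' c x := by ext i; fin_cases i <;> simp

lemma graphMap_apply (ℓ : ℝ × ℝ →L[ℝ] ℝ) (v : ℝ × ℝ) : graphMap ℓ v = !₂[v.1, v.2, ℓ v] := rfl

lemma graphMap_injective (ℓ : ℝ × ℝ →L[ℝ] ℝ) : Function.Injective (graphMap ℓ) := by
  intro x y h
  have h0 := congrArg (fun q : EuclideanSpace ℝ (Fin 3) => q 0) h
  have h1 := congrArg (fun q : EuclideanSpace ℝ (Fin 3) => q 1) h
  simp [graphMap_apply] at h0 h1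
  exact Prod.ext h0 h1

lemma finrank_graph (ℓ : ℝ × ℝ →L[ℝ] ℝ) : Module.finrank ℝ (LinearMap.range (graphMap ℓ)) = 2 := by
  rw [LinearMap.finrank_range_of_inj (graphMap_injective ℓ)]
  simp

lemma norm_le_euclid (q : EuclideanSpace ℝ (Fin 3)) : ‖((q 0, q 1) : ℝ × ℝ)‖ ≤ ‖q‖ := by
  rw [Prod.norm_def]
  exact max_le (PiLp.norm_apply_le q 0) (PiLp.norm_apply_le q 1)

lemma tangent_aux (η ε : ℝ) (hangle : ∀ x v : EuclideanSpace ℝ (Fin 3), v ≠ 0 →
      ‖x - v‖ ≤ η * ‖v‖ → InnerProductGeometry.angle x v < ε) (hη : 0 < η)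
    (ℓ : ℝ × ℝ →L[ℝ] ℝ) (p q : EuclideanSpace ℝ (Fin 3))
    (hne : ((q 0, q 1) : ℝ × ℝ) ≠ (p 0, p 1))
    (hest : |q 2 - p 2 - ℓ (((q 0, q 1) : ℝ × ℝ) - (p 0, p 1))| ≤
      η * ‖((q 0, q 1) : ℝ × ℝ) - (p 0, p 1)‖) :
    ∃ v ∈ LinearMap.range (graphMap ℓ), v ≠ 0 ∧ InnerProductGeometry.angle (q - p) v < ε := by
  have hv0 : graphMap ℓ (((q 0, q 1) : ℝ × ℝ) - (p 0, p 1)) ≠ 0 := by
    intro h0
    have := graphMap_injective ℓ (h0.trans (map_zero _).symm)
    exact hne (sub_eq_zero.mp this)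
  refine ⟨graphMap ℓ (((q 0, q 1) : ℝ × ℝ) - (p 0, p 1)), LinearMap.mem_range_self _ _, hv0, ?_⟩
  apply hangle _ _ hv0
  have hdiff : q - p - graphMap ℓ (((q 0, q 1) : ℝ × ℝ) - (p 0, p 1)) =
      !₂[0, 0, q 2 - p 2 - ℓ (((q 0, q 1) : ℝ × ℝ) - (p 0, p 1))] := by
    ext i
    fin_cases i
    · simp [graphMap_apply]
    · simp [graphMap_apply]
    · simp [graphMap_apply]
  have hn : ‖q - p - graphMap ℓ (((q 0, q 1) : ℝ × ℝ) - (p 0, p 1))‖ =
      |q 2 - p 2 - ℓ (((q 0, q 1) : ℝ × ℝ) - (p 0, p 1))| := by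
    rw [hdiff, EuclideanSpace.norm_eq, Fin.sum_univ_three]
    simp only [Matrix.cons_val_zero, Matrix.cons_val_one, Matrix.cons_val, norm_zero]
    rw [Real.norm_eq_abs]
    simp [Real.sqrt_sq_eq_abs]
  rw [hn]
  refine hest.trans ?_
  have := norm_le_euclid (graphMap ℓ (((q 0, q 1) : ℝ × ℝ) - (p 0, p 1)))
  have h2 : ((graphMap ℓ (((q 0, q 1) : ℝ × ℝ) - (p 0, p 1)) 0,
      graphMap ℓ (((q 0, q 1) : ℝ × ℝ) - (p 0, p 1)) 1) : ℝ × ℝ) = ((q 0, q 1) : ℝ × ℝ) - (p 0, p 1) := by
    simp [graphMap_apply]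
  rw [h2] at this
  gcongr

lemma tangent_of_double (S : Set (EuclideanSpace ℝ (Fin 3))) (h : ℝ × ℝ → ℝ)
    (hh : Differentiable ℝ h) (hnn : ∀ v, 0 ≤ h v)
    (hS : ∀ q ∈ S, |q 2| = h (q 0, q 1)) (p : EuclideanSpace ℝ (Fin 3)) (hp : p ∈ S) :
    ∃ V, IsTangentPlane S p V := by
  have hpS := hS p hp
  have hcoord : ∀ q : EuclideanSpace ℝ (Fin 3), |q 2 - p 2| ≤ ‖q - p‖ := by
    intro q
    have := PiLp.norm_apply_le (q - p) 2
    simpa using this
  have hcoord2 : ∀ q : EuclideanSpace ℝ (Fin 3), dist ((q 0, q 1) : ℝ × ℝ) (p 0, p 1) ≤ dist q p := by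
    intro q
    rw [dist_eq_norm, dist_eq_norm]
    have := norm_le_euclid (q - p)
    simpa using this
  rcases lt_trichotomy (p 2) 0 with hp2 | hp2 | hp2
  · refine ⟨LinearMap.range (graphMap (-fderiv ℝ h (p 0, p 1))), finrank_graph _, ?_⟩
    intro ε hε
    obtain ⟨η, hη, hangle⟩ := angle_lt (E := EuclideanSpace ℝ (Fin 3)) ε hε
    have hd := (hh (p 0, p 1)).hasFDerivAt.isLittleO.def hη
    obtain ⟨δ1, hδ1, hball⟩ := Metric.eventually_nhds_iff.mp hd
    refine ⟨min δ1 (-(p 2)), lt_min hδ1 (by linarith), ?_⟩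
    intro q hq hqp hdist
    have hd1 : dist q p < δ1 := lt_of_lt_of_le hdist (min_le_left _ _)
    have hd2 : dist q p < -(p 2) := lt_of_lt_of_le hdist (min_le_right _ _)
    have hq2 : q 2 < 0 := by
      have := hcoord q
      rw [← dist_eq_norm, abs_le] at this
      linarith [this.2]
    have hqS := hS q hq
    rw [abs_of_neg hq2] at hqS
    rw [abs_of_neg hp2] at hpS
    apply tangent_aux η ε hangle hη
    · intro heq
      apply hqp
      have h0 := congrArg Prod.fst heq
      have h1 := congrArg Prod.snd heq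
      simp only at h0 h1
      ext i
      fin_cases i
      · exact h0
      · exact h1
      · show q 2 = p 2
        rw [heq, ← hpS] at hqS; linarith
    · have hb := hball (lt_of_le_of_lt (hcoord2 q) hd1)
      rw [Real.norm_eq_abs] at hb
      refine le_trans (le_of_eq ?_) hb
      rw [← abs_neg]
      congr 1
      rw [← hqS, ← hpS]
      simp only [neg_apply]
      ring
  · refine ⟨LinearMap.range (graphMap 0), finrank_graph _, ?_⟩
    intro ε hε
    obtain ⟨η, hη, hangle⟩ := angle_lt (E := EuclideanSpace ℝ (Fin 3)) ε hε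
    have hd := (hh (p 0, p 1)).hasFDerivAt.isLittleO.def hη
    obtain ⟨δ1, hδ1, hball⟩ := Metric.eventually_nhds_iff.mp hd
    rw [hp2, abs_zero] at hpS
    have hmin : IsLocalMin h (p 0, p 1) := by
      apply Filter.Eventually.of_forall
      intro v
      rw [← hpS]; exact hnn v
    have hder : fderiv ℝ h (p 0, p 1) = 0 := hmin.fderiv_eq_zero
    refine ⟨δ1, hδ1, ?_⟩
    intro q hq hqp hdist
    have hqS := hS q hq
    apply tangent_aux η ε hangle hη
    · intro heq
      apply hqp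
      have h0 := congrArg Prod.fst heq
      have h1 := congrArg Prod.snd heq
      simp only at h0 h1
      ext i
      fin_cases i
      · exact h0
      · exact h1
      · show q 2 = p 2
        rw [heq, ← hpS, abs_eq_zero] at hqS; linarith
    · have hb := hball (lt_of_le_of_lt (hcoord2 q) hdist)
      rw [hder, Real.norm_eq_abs, ← hpS] at hb
      refine le_trans (le_of_eq ?_) hb
      rw [← hqS, hp2]
      simp
  · refine ⟨LinearMap.range (graphMap (fderiv ℝ h (p 0, p 1))), finrank_graph _, ?_⟩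
    intro ε hε
    obtain ⟨η, hη, hangle⟩ := angle_lt (E := EuclideanSpace ℝ (Fin 3)) ε hε
    have hd := (hh (p 0, p 1)).hasFDerivAt.isLittleO.def hη
    obtain ⟨δ1, hδ1, hball⟩ := Metric.eventually_nhds_iff.mp hd
    refine ⟨min δ1 (p 2), lt_min hδ1 (by linarith), ?_⟩
    intro q hq hqp hdist
    have hd1 : dist q p < δ1 := lt_of_lt_of_le hdist (min_le_left _ _)
    have hd2 : dist q p < p 2 := lt_of_lt_of_le hdist (min_le_right _ _)
    have hq2 : 0 < q 2 := by
      have := hcoord q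
      rw [← dist_eq_norm, abs_le] at this
      linarith [this.1]
    have hqS := hS q hq
    rw [abs_of_pos hq2] at hqS
    rw [abs_of_pos hp2] at hpS
    apply tangent_aux η ε hangle hη
    · intro heq
      apply hqp
      have h0 := congrArg Prod.fst heq
      have h1 := congrArg Prod.snd heq
      simp only at h0 h1
      ext i
      fin_cases i
      · exact h0
      · exact h1
      · show q 2 = p 2
        rw [heq, ← hpS] at hqS; linarith
    · have hb := hball (lt_of_le_of_lt (hcoord2 q) hd1)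
      rw [Real.norm_eq_abs] at hb
      refine le_trans (le_of_eq ?_) hb
      congr 1
      rw [← hqS, ← hpS]

/-- If `|k| = h ∘ c` near `x`, with `h` vanishing to first order at `c x`, then `k' = 0`. -/
lemma deriv_zero_of_fold (h : ℝ × ℝ → ℝ) (hh : Differentiable ℝ h) (hnn : ∀ v, 0 ≤ h v)
    (c : ℝ → ℝ × ℝ) (x : ℝ) (a : ℝ × ℝ) (hc : HasDerivAt c a x) (h0 : h (c x) = 0)
    (k : ℝ → ℝ) (k' : ℝ) (hk : HasDerivAt k k' x) (heq : ∀ᶠ t in 𝓝 x, |k t| = h (c t)) : k' = 0 := by
  have hmin : IsLocalMin h (c x) := by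
    apply Filter.Eventually.of_forall
    intro v; rw [h0]; exact hnn v
  have hder : HasFDerivAt h (0 : ℝ × ℝ →L[ℝ] ℝ) (c x) := by
    have := (hh (c x)).hasFDerivAt
    rwa [hmin.fderiv_eq_zero] at this
  have h1 : HasDerivAt (fun t => h (c t)) ((0 : ℝ × ℝ →L[ℝ] ℝ) a) x := hder.comp_hasDerivAt x hc
  have ha0 : (0 : ℝ × ℝ →L[ℝ] ℝ) a = 0 := rfl
  rw [ha0] at h1
  have hkx : k x = 0 := by
    have := heq.self_of_nhds
    rw [h0] at this
    exact abs_eq_zero.mp this
  have h2 : HasDerivAt k 0 x := by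
    rw [hasDerivAt_iff_isLittleO] at h1 ⊢
    simp only [smul_zero, sub_zero, h0, hkx] at h1 ⊢
    rw [← Asymptotics.isLittleO_abs_left]
    exact h1.congr' (heq.mono fun t ht => ht.symm) (EventuallyEq.refl _ _)
  exact hk.unique h2

/-- There is a surface `S` (an injective continuous image of a planar domain), with a geometric
tangent plane at each of its points, such that for every representation of `S` and every set `N` of
parameters outside which the partial derivatives exist and the Jacobians are not all zero, the image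
of `N` has positive two-dimensional Hausdorff measure. -/
theorem result : ∃ (S : Set (EuclideanSpace ℝ (Fin 3))) (D : Set (ℝ × ℝ)) (f g h : ℝ × ℝ → ℝ),
    IsRepresentation D f g h S ∧ (∀ p ∈ S, ∃ V, IsTangentPlane S p V) ∧
    ∀ (D₁ : Set (ℝ × ℝ)) (f₁ g₁ h₁ : ℝ × ℝ → ℝ), IsRepresentation D₁ f₁ g₁ h₁ S →
      ∀ N ⊆ D₁, (∀ w ∈ D₁ \ N, RegularAt f₁ g₁ h₁ w) → 0 < μH[2] (param f₁ g₁ h₁ '' N) := by
  classical
  obtain ⟨φ, hφc, hφ⟩ := exists_phi
  obtain ⟨cf, hcf⟩ := exists_homeo code code_continuous code_injective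
  -- the defining function of the region
  set T : ℝ × ℝ → ℝ := fun v => cf.symm v.2 - φ (cf.symm v.1 + 2 * cf.symm v.2) with hT
  have hTc : Continuous T := by
    have h1 : Continuous cf.symm := cf.symm.continuous
    exact (h1.comp continuous_snd).sub (hφc.comp ((h1.comp continuous_fst).add
      (continuous_const.mul (h1.comp continuous_snd))))
  have hopen : IsOpen {v | 0 < T v} := isOpen_lt continuous_const hTc
  obtain ⟨h, hsupp, hsmooth, hrange⟩ := hopen.exists_contDiff_support_eq (n := ⊤)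
  have hnn : ∀ v, 0 ≤ h v := fun v => (hrange (mem_range_self v)).1
  have hh : Differentiable ℝ h := hsmooth.differentiable (by simp)
  have hpos : ∀ v, 0 < T v → 0 < h v := by
    intro v hv
    have : v ∈ Function.support h := by rw [hsupp]; exact hv
    exact lt_of_le_of_ne (hnn v) (Ne.symm this)
  have hzero : ∀ v, T v = 0 → h v = 0 := by
    intro v hv
    by_contra hne
    have : v ∈ Function.support h := hne
    rw [hsupp] at this
    exact absurd hv (ne_of_gt this)
  -- parametrization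
  set X : ℝ × ℝ → ℝ := fun w => cf (w.1 - 2 * (|w.2| + φ w.1)) with hX
  set Y : ℝ × ℝ → ℝ := fun w => cf (|w.2| + φ w.1) with hY
  have hXc : Continuous X := by
    have h1 : Continuous cf := cf.continuous
    exact h1.comp (continuous_fst.sub (continuous_const.mul
      ((continuous_abs.comp continuous_snd).add (hφc.comp continuous_fst))))
  have hYc : Continuous Y := by
    have h1 : Continuous cf := cf.continuous
    exact h1.comp ((continuous_abs.comp continuous_snd).add (hφc.comp continuous_fst))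
  have hTXY : ∀ w, T (X w, Y w) = |w.2| := by
    intro w
    simp only [hT, hX, hY, Homeomorph.symm_apply_apply]
    have : w.1 - 2 * (|w.2| + φ w.1) + 2 * (|w.2| + φ w.1) = w.1 := by ring
    rw [this]; ring
  have hsXY : ∀ w, cf.symm (X w) + 2 * cf.symm (Y w) = w.1 := by
    intro w
    simp only [hX, hY, Homeomorph.symm_apply_apply]
    ring
  set Z : ℝ × ℝ → ℝ := fun w => if 0 ≤ w.2 then h (X w, Y w) else - h (X w, Y w) with hZ
  have hZc : Continuous Z := by
    have h1 : Continuous fun w => h (X w, Y w) := hh.continuous.comp (hXc.prodMk hYc)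
    refine Continuous.if_le h1 h1.neg continuous_const continuous_snd ?_
    intro w hw
    have : h (X w, Y w) = 0 := by
      apply hzero
      rw [hTXY, ← hw, abs_zero]
    rw [this, neg_zero]
  have hZabs : ∀ w, |Z w| = h (X w, Y w) := by
    intro w
    simp only [hZ]
    split_ifs
    · exact abs_of_nonneg (hnn _)
    · rw [abs_neg]; exact abs_of_nonneg (hnn _)
  set S : Set (EuclideanSpace ℝ (Fin 3)) := param X Y Z '' univ with hSdef
  have hp0 : ∀ f g h w, param f g h w 0 = f w := fun f g h w => by simp [param]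
  have hp1 : ∀ f g h w, param f g h w 1 = g w := fun f g h w => by simp [param]
  have hp2 : ∀ f g h w, param f g h w 2 = h w := fun f g h w => by simp [param]
  have hS1 : ∀ q ∈ S, |q 2| = h (q 0, q 1) := by
    rintro q ⟨w, -, rfl⟩
    rw [hp0, hp1, hp2]; exact hZabs w
  have hS2 : ∀ q ∈ S, 0 ≤ T (q 0, q 1) := by
    rintro q ⟨w, -, rfl⟩
    rw [hp0, hp1, hTXY]; exact abs_nonneg _
  refine ⟨S, univ, X, Y, Z, ?_, ?_, ?_⟩
  · refine ⟨isOpen_univ, isConnected_univ, hXc.continuousOn, hYc.continuousOn,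
      hZc.continuousOn, ?_, rfl⟩
    intro w _ w' _ hww
    have e0 := congrArg (fun q : EuclideanSpace ℝ (Fin 3) => q 0) hww
    have e1 := congrArg (fun q : EuclideanSpace ℝ (Fin 3) => q 1) hww
    have e2 := congrArg (fun q : EuclideanSpace ℝ (Fin 3) => q 2) hww
    simp only [hp0, hp1, hp2] at e0 e1 e2
    have hfst : w.1 = w'.1 := by rw [← hsXY w, ← hsXY w', e0, e1]
    have habs : |w.2| = |w'.2| := by rw [← hTXY w, ← hTXY w', e0, e1]
    refine Prod.ext hfst ?_
    rcases abs_eq_abs.mp habs with h1 | h1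
    · exact h1
    · by_cases hw0 : w.2 = 0
      · rw [hw0] at h1 ⊢; linarith
      · exfalso
        have hposh : 0 < h (X w, Y w) := by
          apply hpos; rw [hTXY]; exact abs_pos.mpr hw0
        have hXY' : h (X w', Y w') = h (X w, Y w) := by rw [e0, e1]
        simp only [hZ] at e2
        rcases lt_or_gt_of_ne hw0 with h2 | h2
        · rw [if_neg (not_le.mpr h2), if_pos (by linarith), hXY'] at e2
          linarith
        · rw [if_pos h2.le, if_neg (not_le.mpr (by linarith)), hXY'] at e2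
          linarith
  · intro p hp
    exact tangent_of_double S h hh hnn hS1 p hp
  · intro D₁ f₁ g₁ h₁ hrep N hN hreg
    set F : ℝ × ℝ → ℝ × ℝ := fun w => (f₁ w, g₁ w) with hF
    set Ω : Set (ℝ × ℝ) := {v | 0 ≤ T v} with hΩ
    have hmemS : ∀ w ∈ D₁, param f₁ g₁ h₁ w ∈ S := by
      intro w hw; rw [← hrep.image_eq]; exact mem_image_of_mem _ hw
    have hFΩ : ∀ w ∈ D₁, F w ∈ Ω := by
      intro w hw
      have := hS2 _ (hmemS w hw)
      rwa [hp0, hp1] at this
    have hFc : ContinuousOn F D₁ := hrep.continuousOn_f.prodMk hrep.continuousOn_g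
    have habs : ∀ w ∈ D₁, |h₁ w| = h (F w) := by
      intro w hw
      have := hS1 _ (hmemS w hw)
      rwa [hp0, hp1, hp2] at this
    have hnull := null_main F D₁ hrep.isOpen hFc Ω hFΩ
    set G : Set (ℝ × ℝ) := {w | w ∈ D₁ ∧ F w ∈ closure Ωᶜ ∧ ∃ a b : ℝ × ℝ,
      HasDerivAt (fun t => F (t, w.2)) a w.1 ∧ HasDerivAt (fun t => F (w.1, t)) b w.2 ∧
      a.1 * b.2 - a.2 * b.1 ≠ 0} with hG
    -- the fat product
    set K : Set (ℝ × ℝ) := (cf '' range code) ×ˢ (cf '' range code) with hK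
    have hKpos : 0 < volume K := by
      rw [hK, Measure.volume_eq_prod, Measure.prod_prod]
      exact ENNReal.mul_pos hcf.ne' hcf.ne'
    have hKsub : K ⊆ F '' N ∪ F '' G := by
      rintro ⟨x, y⟩ ⟨⟨_, ⟨a, rfl⟩, hx⟩, ⟨_, ⟨b, rfl⟩, hy⟩⟩
      simp only at hx hy
      subst hx hy
      -- a point of S above
      have hXY : X (code a + 2 * code b, 0) = cf (code a) ∧ Y (code a + 2 * code b, 0) = cf (code b) := by
        simp only [hX, hY, abs_zero, zero_add, hφ]
        constructor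
        · congr 1; ring
        · trivial
      have hTK : T (cf (code a), cf (code b)) = 0 := by
        rw [← hXY.1, ← hXY.2, hTXY, abs_zero]
      have hptS : param X Y Z (code a + 2 * code b, 0) ∈ S := mem_image_of_mem _ (mem_univ _)
      rw [← hrep.image_eq] at hptS
      obtain ⟨w, hwD, hw⟩ := hptS
      have e0 := congrArg (fun q : EuclideanSpace ℝ (Fin 3) => q 0) hw
      have e1 := congrArg (fun q : EuclideanSpace ℝ (Fin 3) => q 1) hw
      simp only [hp0, hp1, hXY.1, hXY.2] at e0 e1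
      have hFw : F w = (cf (code a), cf (code b)) := by simp only [hF]; rw [e0, e1]
      by_cases hwN : w ∈ N
      · exact Or.inl ⟨w, hwN, hFw⟩
      · right
        refine ⟨w, ⟨hwD, ?_, ?_⟩, hFw⟩
        · -- limit of points with T < 0
          rw [hFw]
          have hcurve : Continuous fun t : ℝ =>
              ((cf (code a + 2 * code b - 2 * (t + φ (code a + 2 * code b))),
                cf (t + φ (code a + 2 * code b))) : ℝ × ℝ) := by
            have h1 : Continuous cf := cf.continuous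
            fun_prop
          have hval : (fun t : ℝ =>
              ((cf (code a + 2 * code b - 2 * (t + φ (code a + 2 * code b))),
                cf (t + φ (code a + 2 * code b))) : ℝ × ℝ)) 0 = (cf (code a), cf (code b)) := by
            simp only [zero_add, hφ]
            congr 2
            ring
          rw [← hval]
          refine mem_closure_of_tendsto (hcurve.continuousWithinAt (s := Iio 0)) ?_
          filter_upwards [self_mem_nhdsWithin] with t ht
          simp only [hΩ, hT, mem_compl_iff, mem_ofPred_eq, not_le, Homeomorph.symm_apply_apply]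
          have : code a + 2 * code b - 2 * (t + φ (code a + 2 * code b)) +
              2 * (t + φ (code a + 2 * code b)) = code a + 2 * code b := by ring
          rw [this]
          have : t < 0 := ht
          linarith
        · obtain ⟨fu, fv, gu, gv, hu, hv, d1, d2, d3, d4, d5, d6, hjac⟩ := hreg w ⟨hwD, hwN⟩
          have hcu : HasDerivAt (fun t => F (t, w.2)) (fu, gu) w.1 := d1.prodMk d3
          have hcv : HasDerivAt (fun t => F (w.1, t)) (fv, gv) w.2 := d2.prodMk d4
          refine ⟨(fu, gu), (fv, gv), hcu, hcv, ?_⟩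
          have hnhds1 : ∀ᶠ t in 𝓝 w.1, ((t, w.2) : ℝ × ℝ) ∈ D₁ :=
            (by fun_prop : Continuous fun t : ℝ => ((t, w.2) : ℝ × ℝ)).continuousAt.eventually
              (hrep.isOpen.mem_nhds hwD)
          have hnhds2 : ∀ᶠ t in 𝓝 w.2, ((w.1, t) : ℝ × ℝ) ∈ D₁ :=
            (by fun_prop : Continuous fun t : ℝ => ((w.1, t) : ℝ × ℝ)).continuousAt.eventually
              (hrep.isOpen.mem_nhds hwD)
          have hhw : h (F w) = 0 := by rw [hFw]; exact hzero _ hTK
          have hu0 : hu = 0 := deriv_zero_of_fold h hh hnn (fun t => F (t, w.2)) w.1 (fu, gu) hcu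
            hhw (fun t => h₁ (t, w.2)) hu d5 (hnhds1.mono fun t ht => habs _ ht)
          have hv0 : hv = 0 := deriv_zero_of_fold h hh hnn (fun t => F (w.1, t)) w.2 (fv, gv) hcv
            hhw (fun t => h₁ (w.1, t)) hv d6 (hnhds2.mono fun t ht => habs _ ht)
          intro hdet
          apply hjac
          rw [hu0, hv0]
          refine ⟨by ring, by ring, ?_⟩
          simp only at hdet
          linarith
    have hFN : 0 < volume (F '' N) := by
      have h1 : volume K ≤ volume (F '' N) + volume (F '' G) :=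
        (measure_mono hKsub).trans (measure_union_le _ _)
      rw [hnull, add_zero] at h1
      exact lt_of_lt_of_le hKpos h1
    have hproj : LipschitzWith 1 (fun q : EuclideanSpace ℝ (Fin 3) => ((q 0, q 1) : ℝ × ℝ)) := by
      apply LipschitzWith.of_dist_le_mul
      intro q q'
      rw [NNReal.coe_one, one_mul, dist_eq_norm, dist_eq_norm]
      exact norm_le_euclid (q - q')
    have himg : (fun q : EuclideanSpace ℝ (Fin 3) => ((q 0, q 1) : ℝ × ℝ)) '' (param f₁ g₁ h₁ '' N) =
        F '' N := by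
      rw [image_image]
      apply image_congr
      intro w _
      simp only [hp0, hp1, hF]
    have h2 := hproj.hausdorffMeasure_image_le (d := 2) (by norm_num) (param f₁ g₁ h₁ '' N)
    rw [himg, hausdorffMeasure_prod_real] at h2
    simp only [ENNReal.coe_one, ENNReal.one_rpow, one_mul] at h2
    exact lt_of_lt_of_le hFN h2

end Pool.Agent.Results.MP_4d0de2_an.FoldedOsgoodSurface
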